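import Pool.Agent.H95.Tas

set_option autoImplicit false

open Pool.Agent.H95.Tas

theorem Pool.Agent.Results.MP_01b7fc_pr.NotMin.result :
    ∃ (t : Fin 6 → ℝ) (pos : Fin 6 → Fin 6) (u : Equiv.Perm (Fin 6)), (∀ i, 0 < t i) ∧
      (∃! p, IsStat t p) ∧ ∀ p, IsStat t p → InE 2 pos u ∧
        ∀ w, InE 2 pos w → CycDesc 2 w → cond p 2 pos u < cond p 2 pos w := by
  refine ⟨t0, pos0, w0, ?_, main⟩
  intro i
  fin_cases i <;> simp [t0]
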